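import Mathlib

set_option autoImplicit false
set_option linter.unusedSectionVars false

open Filter Topology Finset
open scoped InnerProductSpace

namespace Pool.Agent.H.MP_c3cf66_an

noncomputable abbrev l2 (G : Type) := lp (fun _ : G => ℂ) 2

variable {G : Type} [Group G] [DecidableEq G]

lemma sq (f : l2 G) : HasSum (fun x => ‖f x‖ ^ 2) (‖f‖ ^ 2) := by
  simpa using lp.hasSum_norm (p := 2) (by simp) f

noncomputable def Ui (e : G ≃ G) : l2 G →ₗᵢ[ℂ] l2 G where
  toFun f := ⟨fun x => f (e x), (memℓp_gen_iff (by simp)).2 (by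
    simpa [Function.comp_def] using e.summable_iff.2 (sq f).summable)⟩
  map_add' _ _ := rfl
  map_smul' _ _ := rfl
  norm_map' f := (pow_left_inj₀ (norm_nonneg _) (norm_nonneg _) two_ne_zero).1
    ((sq _).unique (e.hasSum_iff.2 (sq f)))

noncomputable def lam (g : G) : l2 G →L[ℂ] l2 G := (Ui (Equiv.mulLeft g⁻¹)).toContinuousLinearMap
noncomputable def rho (g : G) : l2 G →L[ℂ] l2 G := (Ui (Equiv.mulRight g)).toContinuousLinearMap
noncomputable def dl (g : G) : l2 G := lp.single 2 g 1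

lemma lam_apply (g : G) (f : l2 G) (x : G) : lam g f x = f (g⁻¹ * x) := rfl
lemma rho_apply (g : G) (f : l2 G) (x : G) : rho g f x = f (x * g) := rfl
lemma dl_apply (g x : G) : dl g x = if x = g then 1 else 0 := by simp [dl, Pi.single_apply]

def Cm (X : l2 G →L[ℂ] l2 G) : Prop := ∀ g, Commute X (rho g)

lemma Cm.dl {X : l2 G →L[ℂ] l2 G} (h : Cm X) (g x : G) : X (dl g) x = X (dl 1) (x * g⁻¹) := by
  have : MP_c3cf66_an.dl g = rho g⁻¹ (MP_c3cf66_an.dl 1) := by
    ext x; simp [dl_apply, rho_apply, mul_inv_eq_one]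
  rw [this, ← mul_apply_eq_comp, h]; rfl

lemma expand (X : l2 G →L[ℂ] l2 G) (f : l2 G) (x : G) : HasSum (fun g => f g * X (dl g) x) (X f x) := by
  refine (((lp.hasSum_single (by simp) f).mapL X).mapL (lp.evalCLM ℂ _ 2 x)).congr_fun fun g => ?_
  rw [show lp.single 2 g (f g) = f g • dl g by rw [dl, ← lp.single_smul]; simp, map_smul]; rfl

lemma Cm.zero {X : l2 G →L[ℂ] l2 G} (h : Cm X) (h0 : X (MP_c3cf66_an.dl 1) = 0) : X = 0 := by
  ext1 f; ext x
  exact (expand X f x).unique (by simp [h.dl, h0])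

lemma trace {X Y : l2 G →L[ℂ] l2 G} (hX : Cm X) (hY : Cm Y) : (X * Y) (dl 1) 1 = (Y * X) (dl 1) 1 := by
  refine (expand X _ 1).unique (((Equiv.inv G).hasSum_iff.2 (expand Y _ 1)).congr_fun fun g => ?_)
  rw [hX.dl, Function.comp, hY.dl]
  simp [mul_comm]

lemma inj {A B : l2 G →L[ℂ] l2 G} (hA : Cm A) (hB : Cm B) (h : A * B = 1) {f : l2 G} (hf : A f = 0) : f = 0 := by
  let P := (LinearMap.ker A.toLinearMap).starProjection
  have m (g) {w : l2 G} (hw : A w = 0) : A (rho g w) = 0 := by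
    rw [← mul_apply_eq_comp, hA, mul_apply_eq_comp, hw, map_zero]
  have pm (u) : A (P u) = 0 := Submodule.starProjection_apply_mem (LinearMap.ker A.toLinearMap) u
  have hP : Cm P := fun g => ContinuousLinearMap.ext fun u =>
    Submodule.eq_starProjection_of_mem_of_inner_eq_zero (u := rho g u) (v := rho g (P u)) (m g (pm u))
      fun w hw => by
        have e : w = rho g (rho g⁻¹ w) := by ext x; simp [rho_apply]
        rw [e, ← map_sub]
        exact ((Ui _).inner_map_map _ _).trans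
          (Submodule.starProjection_inner_eq_zero u _ (m g⁻¹ hw))
  have hE : Cm (1 - B * A) := fun g => (Commute.one_left _).sub_left ((hB g).mul_left (hA g))
  have e1 : (1 - B * A) * P = P := ContinuousLinearMap.ext fun u => by
    simp [pm]
  have e2 : P * (1 - B * A) = 1 - B * A := ContinuousLinearMap.ext fun u =>
    Submodule.starProjection_eq_self_iff.2 (by
      change (A * (1 - B * A)) u = 0
      rw [mul_sub, ← mul_assoc, h]; simp)
  have t := trace hE hP
  rw [e1, e2, sub_apply, lp.coeFn_sub, Pi.sub_apply, trace hB hA, h, sub_self] at t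
  have : ⟪dl 1, P (dl 1)⟫_ℂ = 0 := (lp.inner_single_left _ _ _).trans (by simpa using t)
  rw [← Submodule.starProjection_eq_self_iff.2 (Submodule.starProjection_apply_mem _ (dl 1)),
    ← Submodule.inner_starProjection_left_eq_right, inner_self_eq_zero] at this
  rw [← Submodule.starProjection_eq_self_iff.2 (show f ∈ LinearMap.ker A.toLinearMap from hf)]
  exact congrArg (· f) (hP.zero this)

noncomputable def L (a : G → ℂ) : l2 G →L[ℂ] l2 G := ∑' g, a g • lam g

lemma hasL {a : G → ℂ} (ha : Summable fun g => ‖a g‖) : HasSum (fun g => a g • lam g) (L a) :=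
  (ha.of_norm_bounded fun _ => (norm_smul_le _ _).trans (mul_le_of_le_one_right (norm_nonneg _)
    (Ui _).norm_toContinuousLinearMap_le)).hasSum

lemma L_apply {a : G → ℂ} (ha : Summable fun g => ‖a g‖) (f : l2 G) (x : G) :
    HasSum (fun g => a g * f (g⁻¹ * x)) (L a f x) :=
  ((hasL ha).mapL (ContinuousLinearMap.apply ℂ (l2 G) f)).mapL (lp.evalCLM ℂ _ 2 x)

lemma cm_lam (g : G) : Cm (lam g) := fun h => by
  ext1 f; ext x; simp [lam_apply, rho_apply, mul_assoc]

lemma cm_L {a : G → ℂ} (ha : Summable fun g => ‖a g‖) : Cm (L a) := fun h =>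
  ((hasL ha).mul_right _).unique (((hasL ha).mul_left _).congr_fun fun g => by
    rw [smul_mul_assoc, mul_smul_comm, cm_lam])

lemma L_dl {a : G → ℂ} (ha : Summable fun g => ‖a g‖) (x : G) : L a (dl 1) x = a x :=
  (L_apply ha _ x).unique (by
    refine (hasSum_ite_eq x (a x)).congr_fun fun g => ?_
    by_cases h : g = x <;> simp [dl_apply, inv_mul_eq_one, h])

structure PP (s : ℕ → G) (A : Bool → ℕ → Set G) : Prop where
  d : ∀ b, ∀ i < 4, ∀ j < 4, ∀ x ∈ A b i, x ∈ A b j → i = j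
  m : ∀ i x, x ∉ A false i → s i * x ∈ A true i

variable {s : ℕ → G} {A : Bool → ℕ → Set G}

lemma cheeger (H : PP s A) {φ : G → ℝ} (h0 : ∀ x, 0 ≤ φ x) (hφ : Summable φ) {ψ : ℕ → G → ℝ}
    (h1 : ∀ i x, 0 ≤ ψ i x) (hψ : ∀ i, Summable (ψ i)) (h : ∀ i < 4, ∀ x, φ x ≤ 2 * φ (s i * x) + ψ i x) :
    ∑' x, φ x ≤ ∑ i ∈ range 4, ∑' x, ψ i x := by
  classical
  let p (b : Bool) (i : ℕ) := (A b i).indicator φ
  have sm (b i) : Summable (p b i) := hφ.indicator _
  have le (b) : ∑ i ∈ range 4, ∑' x, p b i x ≤ ∑' x, φ x := by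
    rw [← Summable.tsum_finsetSum fun i _ => sm b i]
    refine (summable_sum fun i _ => sm b i).tsum_le_tsum (fun x => ?_) hφ
    simp only [p, Set.indicator_apply, ← sum_filter, sum_const, nsmul_eq_mul]
    refine mul_le_of_le_one_left (h0 x) (Nat.cast_le_one.2 (card_le_one.2 fun i hi j hj => ?_))
    exact H.d b i (mem_range.1 (mem_filter.1 hi).1) j (mem_range.1 (mem_filter.1 hj).1) x
      (mem_filter.1 hi).2 (mem_filter.1 hj).2
  have k (i) (hi : i ∈ range 4) : ∑' x, φ x ≤ ∑' x, p false i x + 2 * ∑' x, p true i x + ∑' x, ψ i x := by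
    refine hasSum_le (fun x => ?_) hφ.hasSum (((sm _ i).hasSum.add (((Equiv.mulLeft (s i)).hasSum_iff.2
      (sm _ i).hasSum).mul_left 2)).add (hψ i).hasSum)
    by_cases hx : x ∈ A false i
    · have : 0 ≤ p true i (s i * x) := Set.indicator_nonneg (fun _ _ => h0 _) _
      simp only [p, Set.indicator_of_mem hx, Function.comp, Equiv.coe_mulLeft] at *
      linarith [h1 i x]
    · simpa [p, hx, Set.indicator_of_mem (H.m i x hx)] using h i (mem_range.1 hi) x
  have := sum_le_sum k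
  simp only [sum_add_distrib, ← mul_sum, sum_const, card_range, nsmul_eq_mul, Nat.cast_ofNat] at this
  linarith [le true, le false]

lemma unit (H : PP s A) : IsUnit (∑ i ∈ range 4, (1 - lam (s i)⁻¹)) := by
  refine ContinuousLinearMap.isUnit_of_forall_le_norm_inner_map _ (c := 1 / 4) (by simp) fun f => ?_
  have := cheeger H (fun _ => by positivity) (sq f).summable (fun _ _ => by positivity)
    (fun i => (sq (f - lam (s i)⁻¹ f)).summable.mul_left 2) fun i _ x => by
      have := norm_le_norm_add_norm_sub' (f x) (f (s i * x))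
      simp only [lp.coeFn_sub, Pi.sub_apply, lam_apply, inv_inv]
      nlinarith [norm_nonneg (f x), sq_nonneg (‖f (s i * x)‖ - ‖f x - f (s i * x)‖)]
  simp only [tsum_mul_left, (sq _).tsum_eq] at this
  refine le_trans ?_ (Complex.re_le_norm _)
  have e (i) : (⟪(1 - lam (s i)⁻¹) f, f⟫_ℂ).re = ‖f - lam (s i)⁻¹ f‖ ^ 2 / 2 := by
    rw [@norm_sub_sq ℂ, show ‖lam _ f‖ = ‖f‖ from (Ui _).norm_map f, sub_apply, inner_sub_left,
      inner_re_symm, Complex.sub_re, one_apply_eq_self, inner_self_eq_norm_sq_to_K]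
    simp [← Complex.ofReal_pow]; ring
  rw [← mul_sum] at this
  simp only [_root_.sum_apply, sum_inner, Complex.re_sum, e, ← sum_div]
  push_cast
  linarith

lemma l1 (H : PP s A) (b : l2 G) {y e : ℕ → G → ℂ} (hy : ∀ i, Summable fun x => ‖y i x‖)
    (he : ∀ i, Summable fun x => ‖e i x‖) (η : ∀ i, ∑' x, ‖e i x‖ ≤ 1 / 48) {r : ℕ → G → ℂ}
    (hr : ∀ i x, HasSum (fun g => e i g * b (x * g⁻¹)) (r i x))
    (h : ∀ i < 4, ∀ x, y i x = b x - b (x * s i) + r i x) : Summable fun x => ‖b x‖ := by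
  let φ (δ : ℝ) (x : G) := max (‖b x⁻¹‖ - δ) 0
  have φ0 (δ x) : 0 ≤ φ δ x := le_max_right _ _
  have s0 : HasSum (fun x : G => ‖b x⁻¹‖ ^ 2) (‖b‖ ^ 2) := (Equiv.inv G).hasSum_iff.2 (sq b)
  have le {δ} (δ0 : 0 < δ) (x) : φ δ x ≤ ‖b x⁻¹‖ ^ 2 / δ := max_le (by
    rw [le_div_iff₀ δ0]; nlinarith [norm_nonneg (b x⁻¹), sq_nonneg (‖b x⁻¹‖ - δ)]) (by positivity)
  have sm {δ} (δ0 : 0 < δ) : Summable (φ δ) := .of_nonneg_of_le (φ0 δ) (le δ0) (s0.summable.div_const δ)
  obtain ⟨K, hK⟩ : ∃ K, K = ∑ i ∈ range 4, ∑' x, ‖y i x‖ := ⟨_, rfl⟩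
  have K0 : 0 ≤ K := hK ▸ sum_nonneg fun _ _ => tsum_nonneg fun _ => norm_nonneg _
  have st {δ} (δ0 : 0 < δ) : ∑' x, φ δ x ≤ K + (∑' x, φ (δ / 2) x) / 4 := by
    have d := half_pos δ0
    have S (i) : Summable fun p : G × G => ‖e i p.1‖ * φ (δ / 2) (p.1 * (s i * p.2)) :=
      ((Equiv.refl G).prodShear fun g => Equiv.mulLeft (g * s i)).summable_iff.2
        ((he i).mul_of_nonneg (sm d) (fun _ => norm_nonneg _) (φ0 _)) |>.congr fun p => by simp
    have t (g : G) : ∑' x, φ (δ / 2) (g * x) = ∑' x, φ (δ / 2) x := (Equiv.mulLeft g).tsum_eq _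
    have s1 (i) : HasSum (fun x => ‖y i (s i * x)⁻¹‖) (∑' x, ‖y i x‖) :=
      ((Equiv.mulLeft (s i)).trans (Equiv.inv G)).hasSum_iff.2 (hy i).hasSum
    have s2 (i) : HasSum (fun x => ∑' g, ‖e i g‖ * φ (δ / 2) (g * (s i * x)))
        ((∑' x, ‖e i x‖) * ∑' x, φ (δ / 2) x) := by
      have : Summable fun x => ∑' g, ‖e i g‖ * φ (δ / 2) (g * (s i * x)) := (S i).prod_symm.prod
      have := this.hasSum
      rw [(S i).tsum_comm (f := fun g x => ‖e i g‖ * φ (δ / 2) (g * (s i * x)))] at this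
      simpa only [← mul_assoc, tsum_mul_left, t, tsum_mul_right] using this
    have s3 (i) : HasSum (fun x => 1 / 24 * φ (δ / 2) (s i * x)) (1 / 24 * ∑' x, φ (δ / 2) x) :=
      ((Equiv.mulLeft (s i)).hasSum_iff.2 (sm d).hasSum).mul_left _
    have s4 (i) := ((s1 i).add (s2 i)).add (s3 i)
    have n (i x) : 0 ≤ ∑' g, ‖e i g‖ * φ (δ / 2) (g * (s i * x)) :=
      tsum_nonneg fun g => mul_nonneg (norm_nonneg _) (φ0 _ _)
    refine (cheeger H (φ0 δ) (sm δ0) (fun i x => add_nonneg (add_nonneg (norm_nonneg _) (n i x))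
      (mul_nonneg (by norm_num) (φ0 _ _))) (fun i => (s4 i).summable) fun i hi x => ?_).trans ?_
    · have a : ‖r i (s i * x)⁻¹‖ ≤ ∑' g, ‖e i g‖ * φ (δ / 2) (g * (s i * x)) + (∑' x, ‖e i x‖) * (δ / 2) :=
        (hr i _).norm_le_of_bounded (((S i).prod_symm.prod_factor x).hasSum.add
          ((he i).hasSum.mul_right _)) fun g => by
            simp only [norm_mul, Prod.swap_prod_mk, ← mul_add, ← mul_inv_rev]
            gcongr
            exact sub_le_iff_le_add.1 (le_max_left _ _)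
      have c : b x⁻¹ = b (s i * x)⁻¹ + r i (s i * x)⁻¹ - y i (s i * x)⁻¹ := by simp [h i hi]
      have c := (congrArg norm c).trans_le ((norm_sub_le _ _).trans (add_le_add_left (norm_add_le _ _) _))
      have a' := mul_le_mul_of_nonneg_right (η i) d.le
      have := n i x
      have := φ0 δ (s i * x)
      have := φ0 (δ / 2) (s i * x)
      have := norm_nonneg (y i (s i * x)⁻¹)
      refine max_le ?_ (by linarith)
      have := le_max_left (‖b (s i * x)⁻¹‖ - δ) 0
      have := le_max_left (‖b (s i * x)⁻¹‖ - δ / 2) 0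
      simp only [φ] at *
      rcases le_total ‖b (s i * x)⁻¹‖ (3 / 4 * δ) with o | o <;> linarith
    simp only [(s4 _).tsum_eq, sum_add_distrib, ← hK]
    have t0 : 0 ≤ ∑' x, φ (δ / 2) x := tsum_nonneg (φ0 (δ / 2))
    have := sum_le_sum fun i (_ : i ∈ range 4) => mul_le_mul_of_nonneg_right (η i) t0
    simp only [sum_const, card_range, nsmul_eq_mul, Nat.cast_ofNat] at this ⊢
    linarith
  have it (m : ℕ) : ∀ δ > 0, ∑' x, φ δ x ≤ 2 * K + ‖b‖ ^ 2 / δ * (1 / 2) ^ m := by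
    induction m with
    | zero => exact fun δ δ0 => (hasSum_le (le δ0) (sm δ0).hasSum (s0.div_const δ)).trans (by simpa)
    | succ m ih =>
      intro δ δ0
      have := ih _ (half_pos δ0)
      rw [div_div_eq_mul_div, mul_div_right_comm] at this
      rw [pow_succ (1 / 2 : ℝ)]
      linarith [st δ0]
  refine (Equiv.inv G).summable_iff.1 (summable_of_sum_le (c := 2 * K)
    (fun _ => norm_nonneg _) fun F => le_of_forall_pos_le_add fun ε hε => ?_)
  have δ0 : 0 < ε / (F.card + 1) := by positivity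
  have e : F.card * (ε / (F.card + 1)) ≤ ε := by
    rw [← mul_div_assoc, div_le_iff₀ (by positivity)]; nlinarith
  generalize ε / (F.card + 1) = δ at *
  have := ge_of_tendsto' (((tendsto_pow_atTop_nhds_zero_of_lt_one (r := (1 / 2 : ℝ)) (by norm_num)
    (by norm_num)).const_mul (‖b‖ ^ 2 / δ)).const_add (2 * K)) fun m => it m δ δ0
  rw [mul_zero, add_zero] at this
  have k := (sum_le_sum fun x _ => le_max_left (‖b x⁻¹‖ - δ) 0).trans
    (((sm δ0).sum_le_tsum F fun _ _ => le_max_right _ _).trans this)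
  rw [sum_sub_distrib, sum_const, nsmul_eq_mul] at k
  exact (sub_le_iff_le_add.1 k).trans (add_le_add le_rfl e)

theorem main (H : PP s A) {a : G → ℂ} (ha : Summable fun g => ‖a g‖) (a0 : ∑' g, a g = 0)
    (h : ∀ η > 0, ∀ i, ∃ y e : G → ℂ, (Summable fun x => ‖y x‖) ∧ (Summable fun x => ‖e x‖) ∧
      ∑' x, ‖e x‖ ≤ η ∧ ∀ g, dl 1 g - dl (s i)⁻¹ g + e g = ∑' h, a h * y (h⁻¹ * g)) : False := by
  obtain ⟨M, hM⟩ := unit H
  obtain ⟨η, η0, η1, η2⟩ : ∃ η > 0, η ≤ 1 / 48 ∧ 4 * η < ‖(↑M⁻¹ : l2 G →L[ℂ] l2 G)‖⁻¹ := by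
    have : Nontrivial (l2 G) := ⟨0, dl 1, fun h => by simpa [dl_apply] using congrArg (· 1) h⟩
    have := inv_pos.2 (norm_pos_iff.2 M⁻¹.ne_zero)
    exact ⟨min (1 / 48) (‖(↑M⁻¹ : l2 G →L[ℂ] l2 G)‖⁻¹ / 5), by positivity, min_le_left _ _, by
      linarith [min_le_right (1 / 48) (‖(↑M⁻¹ : l2 G →L[ℂ] l2 G)‖⁻¹ / 5)]⟩
  choose y e hy he hη h using h η η0
  have cm (i) : Cm (1 - lam (s i)⁻¹ + L (e i)) := fun g =>
    ((Commute.one_left _).sub_left (cm_lam _ g)).add_left (cm_L (he i) g)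
  have e0 (i) : (1 - lam (s i)⁻¹) (dl 1) = dl 1 - dl (s i)⁻¹ := by
    ext x; simp [lam_apply, dl_apply, mul_eq_one_iff_inv_eq, eq_comm]
  have e1 (i) : L a * L (y i) = 1 - lam (s i)⁻¹ + L (e i) := sub_eq_zero.1 (Cm.zero
    (fun g => ((cm_L ha g).mul_left (cm_L (hy i) g)).sub_left (cm i g)) (by
      ext x
      rw [sub_apply, add_apply, e0, mul_apply_eq_comp]
      simp [← h i, ← (L_apply ha _ x).tsum_eq, L_dl (hy i), L_dl (he i)]))
  have nL (i) : ‖L (e i)‖ ≤ η := ((hasL (he i)).norm_le_of_bounded (he i).hasSum fun _ =>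
    (norm_smul_le _ _).trans (mul_le_of_le_one_right (norm_nonneg _)
      (Ui _).norm_toContinuousLinearMap_le)).trans (hη i)
  let N := M.add (∑ i ∈ range 4, L (e i)) ((norm_sum_le_of_le _ fun i _ => nL i).trans_lt (by simpa))
  have hN : ↑N = ∑ i ∈ range 4, (1 - lam (s i)⁻¹ + L (e i)) := by rw [sum_add_distrib, ← hM]; rfl
  have cM : Cm (↑N⁻¹) := fun g => Commute.units_inv_left (hN ▸ Commute.sum_left _ _ _ fun i _ => cm i g)
  have hB : Cm ((∑ i ∈ range 4, L (y i)) * (↑N⁻¹ : l2 G →L[ℂ] l2 G)) := fun g =>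
    (Commute.sum_left _ _ _ fun i _ => cm_L (hy i) g).mul_left (cM g)
  have e2 : L a * ((∑ i ∈ range 4, L (y i)) * ↑N⁻¹) = 1 := by
    rw [← mul_assoc, mul_sum, sum_congr rfl fun i _ => e1 i, ← hN, N.mul_inv]
  set B := (∑ i ∈ range 4, L (y i)) * ↑N⁻¹
  set b := B (dl 1) with hb
  have e3 : L a b = dl 1 := congrArg (· (dl 1)) e2
  have sb := l1 H b hy he (fun i => (hη i).trans η1) (r := fun i x => B (L (e i) (dl 1)) x)
    (fun i x => (expand B (L (e i) (dl 1)) x).congr_fun fun g => by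
      rw [L_dl (he i), hB.dl g x]) fun i hi x => by
    have := inj (cm_L ha) hB e2 (f := L (y i) (dl 1) - (b - rho (s i) b + B (L (e i) (dl 1)))) (by
      rw [map_sub, map_add, map_sub, ← mul_apply_eq_comp, e1 i, add_apply, e0, e3, ← mul_apply_eq_comp,
        cm_L ha, mul_apply_eq_comp, e3, ← mul_apply_eq_comp (L a) B, e2, sub_eq_zero]
      ext x; simp [rho_apply, dl_apply, mul_eq_one_iff_eq_inv])
    rw [← L_dl (hy i), sub_eq_zero.1 this]; rfl
  have S : Summable fun p : G × G => a p.1 * b (p.1⁻¹ * p.2) :=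
    ((Equiv.refl G).prodShear fun g => Equiv.mulLeft g⁻¹).summable_iff.2
      (summable_mul_of_summable_norm ha sb)
  have := S.tsum_comm (f := fun g x => a g * b (g⁻¹ * x))
  have e4 (g : G) : ∑' x, b (g⁻¹ * x) = ∑' x, b x := (Equiv.mulLeft g⁻¹).tsum_eq b
  simp [(L_apply ha b _).tsum_eq, e3, tsum_mul_left, dl_apply, e4, tsum_mul_right, a0] at this

end Pool.Agent.H.MP_c3cf66_an
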